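import Mathlib

/-!
# Test-free PDL lacks the Craig interpolation property

Let `χ` be the formula `[(p?; a)*] q` of PDL with tests. The test-free formulas

* `φ = r ∧ [a*](r → (q ∧ (p → [a] r)))`,
* `ψ = ¬(⟨a*⟩(e ∧ ¬q) ∧ [a*](¬p → [a][a*]¬e))`

have the common vocabulary `p, q, a`, and `φ → ψ` is valid. If `χ` holds at a state, then `φ` holds
there for a suitable choice of `r`; if `χ` fails at the root of a tree model, then `ψ` fails there
for a suitable choice of `e` (a single point). So every interpolant is equivalent to `χ` at the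
roots of tree models. But no test-free formula `θ` is: consider the natural numbers with the
successor relation, and valuations of period `m`. A test-free program is there either bounded or it
reaches, if `m` is prime to a number depending only on `θ`, all residue classes. So `θ` has the same
truth value at any two points with the same valuations in sufficiently long intervals to the right
of the points, if `m` is prime to a number depending on `θ`. This is not the case for `χ`.
-/

set_option autoImplicit false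

namespace Pool.Agent.Results.MP_7a64d7_lc.TestFreePDLNoCraig

universe u

/-- Test-free programs over the atomic programs `a₀, a₁, …`. -/
inductive Prog : Type
  | atom (a : ℕ) : Prog
  | seq (α β : Prog) : Prog
  | choice (α β : Prog) : Prog
  | star (α : Prog) : Prog

/-- Formulas of test-free PDL over the proposition letters `p₀, p₁, …`. -/
inductive Fm : Type
  | var (p : ℕ) : Fm
  | bot : Fm
  | neg (φ : Fm) : Fm
  | and (φ ψ : Fm) : Fm
  | box (α : Prog) (φ : Fm) : Fm

/-- The atomic programs occurring in a program. -/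
def Prog.atoms : Prog → Set ℕ
  | .atom a => {a}
  | .seq α β => α.atoms ∪ β.atoms
  | .choice α β => α.atoms ∪ β.atoms
  | .star α => α.atoms

namespace Fm

/-- The atomic programs occurring in a formula. -/
def progs : Fm → Set ℕ
  | var _ => ∅
  | bot => ∅
  | neg φ => progs φ
  | and φ ψ => progs φ ∪ progs ψ
  | box α φ => α.atoms ∪ progs φ

/-- The proposition letters occurring in a formula. -/
def vars : Fm → Set ℕ
  | var p => {p}
  | bot => ∅
  | neg φ => vars φ
  | and φ ψ => vars φ ∪ vars ψ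
  | box _ φ => vars φ

/-- Implication. -/
def imp (φ ψ : Fm) : Fm := neg (and φ (neg ψ))

end Fm

/-- Kripke models: a relation for each atomic program, and a valuation. -/
structure Model (W : Type u) where
  /-- the relations of the atomic programs -/
  R : ℕ → W → W → Prop
  /-- the valuation -/
  V : ℕ → W → Prop

variable {W : Type u}

/-- The relation of a program. -/
def Model.rel (M : Model W) : Prog → W → W → Prop
  | .atom a => M.R a
  | .seq α β => fun w v => ∃ u, M.rel α w u ∧ M.rel β u v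
  | .choice α β => fun w v => M.rel α w v ∨ M.rel β w v
  | .star α => Relation.ReflTransGen (M.rel α)

/-- Truth of a formula at a state. -/
def Model.sat (M : Model W) : W → Fm → Prop
  | w, .var p => M.V p w
  | _, .bot => False
  | w, .neg φ => ¬ M.sat w φ
  | w, .and φ ψ => M.sat w φ ∧ M.sat w ψ
  | w, .box α φ => ∀ v, M.rel α w v → M.sat v φ

/-- Validity: truth at all states of all Kripke models. -/
def Valid (φ : Fm) : Prop := ∀ (W : Type u) (M : Model W) (w : W), M.sat w φ

/-- The Craig interpolation property of test-free PDL: for all test-free formulas `φ`, `ψ` with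
`φ → ψ` valid there is a test-free formula `θ`, all of whose proposition letters and atomic programs
occur both in `φ` and in `ψ`, such that `φ → θ` and `θ → ψ` are valid. -/
def CraigInterpolation : Prop :=
  ∀ φ ψ : Fm, Valid.{u} (φ.imp ψ) → ∃ θ : Fm, θ.vars ⊆ φ.vars ∩ ψ.vars ∧
    θ.progs ⊆ φ.progs ∩ ψ.progs ∧ Valid.{u} (φ.imp θ) ∧ Valid.{u} (θ.imp ψ)

/-! ### The two formulas -/

/-- The program `a` -/
def pa : Prog := .atom 0

/-- `φ = r ∧ [a*](r → (q ∧ (p → [a] r)))` with `p, q, r = p₀, p₁, p₂` -/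
def fl : Fm := .and (.var 2) (.box (.star pa)
  (Fm.imp (.var 2) (.and (.var 1) (Fm.imp (.var 0) (.box pa (.var 2))))))

/-- `⟨a*⟩(e ∧ ¬q) ∧ [a*](¬p → [a][a*]¬e)` with `p, q, e = p₀, p₁, p₃` -/
def fr' : Fm := .and (.neg (.box (.star pa) (.neg (.and (.var 3) (.neg (.var 1))))))
  (.box (.star pa) (Fm.imp (.neg (.var 0)) (.box pa (.box (.star pa) (.neg (.var 3))))))

/-- `ψ` -/
def fr : Fm := .neg fr'

lemma sat_imp (M : Model W) (w : W) (φ ψ : Fm) :
    M.sat w (Fm.imp φ ψ) ↔ (M.sat w φ → M.sat w ψ) := by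
  simp only [Fm.imp, Model.sat]
  tauto

lemma sat_fl (M : Model W) (w : W) : M.sat w fl ↔ (M.V 2 w ∧
    ∀ v, Relation.ReflTransGen (M.R 0) w v → M.V 2 v →
      (M.V 1 v ∧ (M.V 0 v → ∀ u, M.R 0 v u → M.V 2 u))) := by
  simp only [fl, Model.sat, sat_imp, Model.rel, pa]

lemma sat_fr' (M : Model W) (w : W) : M.sat w fr' ↔
    ((∃ v, Relation.ReflTransGen (M.R 0) w v ∧ M.V 3 v ∧ ¬ M.V 1 v) ∧
    ∀ v, Relation.ReflTransGen (M.R 0) w v → ¬ M.V 0 v → ∀ u, M.R 0 v u →
      ∀ x, Relation.ReflTransGen (M.R 0) u x → ¬ M.V 3 x) := by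
  simp only [fr', Model.sat, sat_imp, Model.rel, pa]
  push Not
  rfl

lemma valid_imp : Valid.{u} (fl.imp fr) := by
  intro W M w
  rw [sat_imp]
  intro h1 h2
  rw [sat_fl] at h1
  rw [sat_fr'] at h2
  obtain ⟨⟨v, hwv, h3, h4⟩, h5⟩ := h2
  have key : ∀ x, Relation.ReflTransGen (M.R 0) w x → Relation.ReflTransGen (M.R 0) x v →
      M.V 2 x := by
    intro x hx
    induction hx with
    | refl => exact fun _ => h1.1
    | @tail y x hy hyx ih =>
      intro hxv
      have hyv : Relation.ReflTransGen (M.R 0) y v := .head hyx hxv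
      have h6 := h1.2 y hy (ih hyv)
      refine h6.2 ?_ x hyx
      by_contra h7
      exact h5 y hy h7 x hyx v hxv h3
  exact h4 (h1.2 v hwv (key v hwv .refl)).1

/-! ### Programs on the natural numbers -/

/-- The set of lengths of the words of the regular expression `α`. -/
def den : Prog → Set ℕ
  | .atom _ => {1}
  | .seq α β => {n | ∃ x ∈ den α, ∃ y ∈ den β, n = x + y}
  | .choice α β => den α ∪ den β
  | .star α => (AddSubmonoid.closure (den α) : Set ℕ)

/-- The natural numbers with the successor relation. -/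
def NM (V : ℕ → ℕ → Prop) : Model ℕ where
  R _ i j := j = i + 1
  V := V

lemma rel_iff (V : ℕ → ℕ → Prop) (α : Prog) (i j : ℕ) :
    (NM V).rel α i j ↔ ∃ n ∈ den α, j = i + n := by
  induction α generalizing i j with
  | atom a => simp [Model.rel, NM, den]
  | seq α β ih1 ih2 =>
    simp only [Model.rel, den, ih1, ih2]
    constructor
    · rintro ⟨u, ⟨x, hx, rfl⟩, ⟨y, hy, rfl⟩⟩
      exact ⟨x + y, ⟨x, hx, y, hy, rfl⟩, by omega⟩
    · rintro ⟨n, ⟨x, hx, y, hy, rfl⟩, rfl⟩
      exact ⟨i + x, ⟨x, hx, rfl⟩, y, hy, by omega⟩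
  | choice α β ih1 ih2 =>
    simp only [Model.rel, den, ih1, ih2]
    constructor
    · rintro (⟨x, hx, rfl⟩ | ⟨x, hx, rfl⟩)
      · exact ⟨x, Or.inl hx, rfl⟩
      · exact ⟨x, Or.inr hx, rfl⟩
    · rintro ⟨n, hn | hn, rfl⟩
      · exact Or.inl ⟨n, hn, rfl⟩
      · exact Or.inr ⟨n, hn, rfl⟩
  | star α ih =>
    constructor
    · intro h
      change Relation.ReflTransGen ((NM V).rel α) i j at h
      induction h with
      | refl => exact ⟨0, zero_mem _, rfl⟩
      | tail _ h2 ih2 =>
        obtain ⟨n, hn, rfl⟩ := ih2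
        obtain ⟨x, hx, rfl⟩ := (ih _ _).1 h2
        exact ⟨n + x, add_mem hn (AddSubmonoid.subset_closure hx), by omega⟩
    · rintro ⟨n, hn, rfl⟩
      change Relation.ReflTransGen ((NM V).rel α) i (i + n)
      have hn' : n ∈ AddSubmonoid.closure (den α) := hn
      clear hn
      induction hn' using AddSubmonoid.closure_induction generalizing i with
      | mem x hx => exact .single ((ih _ _).2 ⟨x, hx, rfl⟩)
      | zero => exact .refl
      | add x y _ _ h1 h2 =>
        have := h2 (i + x)
        rw [← add_assoc]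
        exact (h1 i).trans this

lemma den_cases (α : Prog) : (den α).Nonempty ∧ ((∃ K, ∀ n ∈ den α, n ≤ K) ∨
    ∃ k d, 0 < d ∧ ∀ t, k + t * d ∈ den α) := by
  induction α with
  | atom a => exact ⟨⟨1, rfl⟩, Or.inl ⟨1, fun n hn => le_of_eq hn⟩⟩
  | seq α β ih1 ih2 =>
    obtain ⟨⟨x, hx⟩, h1⟩ := ih1
    obtain ⟨⟨y, hy⟩, h2⟩ := ih2
    refine ⟨⟨x + y, x, hx, y, hy, rfl⟩, ?_⟩
    rcases h1 with ⟨K, hK⟩ | ⟨k, d, hd, h⟩
    · rcases h2 with ⟨K', hK'⟩ | ⟨k, d, hd, h⟩
      · left
        refine ⟨K + K', ?_⟩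
        rintro n ⟨a, ha, b, hb, rfl⟩
        exact add_le_add (hK a ha) (hK' b hb)
      · right
        exact ⟨x + k, d, hd, fun t => ⟨x, hx, _, h t, by ring⟩⟩
    · right
      exact ⟨k + y, d, hd, fun t => ⟨_, h t, y, hy, by ring⟩⟩
  | choice α β ih1 ih2 =>
    obtain ⟨⟨x, hx⟩, h1⟩ := ih1
    obtain ⟨_, h2⟩ := ih2
    refine ⟨⟨x, Or.inl hx⟩, ?_⟩
    rcases h1 with ⟨K, hK⟩ | ⟨k, d, hd, h⟩
    · rcases h2 with ⟨K', hK'⟩ | ⟨k, d, hd, h⟩
      · left
        refine ⟨max K K', ?_⟩
        rintro n (hn | hn)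
        · exact (hK n hn).trans (le_max_left _ _)
        · exact (hK' n hn).trans (le_max_right _ _)
      · exact Or.inr ⟨k, d, hd, fun t => Or.inr (h t)⟩
    · exact Or.inr ⟨k, d, hd, fun t => Or.inl (h t)⟩
  | star α ih =>
    refine ⟨⟨0, zero_mem _⟩, ?_⟩
    by_cases h : ∃ n ∈ den α, 0 < n
    · obtain ⟨n, hn, hpos⟩ := h
      right
      refine ⟨0, n, hpos, fun t => ?_⟩
      have := AddSubmonoid.nsmul_mem (AddSubmonoid.closure (den α))
        (AddSubmonoid.subset_closure hn) t
      have h2 : 0 + t * n ∈ AddSubmonoid.closure (den α) := by simpa using this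
      exact h2
    · left
      push Not at h
      refine ⟨0, fun n hn => ?_⟩
      have hn' : n ∈ AddSubmonoid.closure (den α) := hn
      clear hn
      induction hn' using AddSubmonoid.closure_induction with
      | mem x hx => exact h x hx
      | zero => exact le_rfl
      | add x y _ _ h1 h2 => omega

/-- Truth at a point of a periodic model depends only on the letters at the points nearby. -/
lemma local_truth (θ : Fm) : ∃ K D : ℕ, 0 < D ∧ ∀ (m : ℕ), 0 < m → Nat.Coprime m D →
    ∀ V : ℕ → ℕ → Prop, (∀ n i, V n (i + m) ↔ V n i) →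
      ∀ i j : ℕ, (∀ k ≤ K, ∀ n, V n (i + k) ↔ V n (j + k)) →
        ((NM V).sat i θ ↔ (NM V).sat j θ) := by
  induction θ with
  | var p => exact ⟨0, 1, one_pos, fun m _ _ V _ i j h => h 0 le_rfl p⟩
  | bot => exact ⟨0, 1, one_pos, fun m _ _ V _ i j h => Iff.rfl⟩
  | neg φ ih =>
    obtain ⟨K, D, hD, h⟩ := ih
    exact ⟨K, D, hD, fun m hm hc V hV i j hij => not_congr (h m hm hc V hV i j hij)⟩
  | and φ ψ ih1 ih2 =>
    obtain ⟨K, D, hD, h⟩ := ih1
    obtain ⟨K', D', hD', h'⟩ := ih2
    refine ⟨max K K', D * D', Nat.mul_pos hD hD', fun m hm hc V hV i j hij => ?_⟩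
    exact and_congr
      (h m hm (Nat.Coprime.coprime_mul_right_right hc) V hV i j
        fun k hk => hij k (hk.trans (le_max_left _ _)))
      (h' m hm (Nat.Coprime.coprime_mul_left_right hc) V hV i j
        fun k hk => hij k (hk.trans (le_max_right _ _)))
  | box α φ ih =>
    obtain ⟨K, D, hD, h⟩ := ih
    rcases (den_cases α).2 with ⟨K', hK'⟩ | ⟨k, d, hd, hk⟩
    · refine ⟨K + K', D, hD, fun m hm hc V hV i j hij => ?_⟩
      have key : ∀ i j : ℕ, (∀ k ≤ K + K', ∀ n, V n (i + k) ↔ V n (j + k)) →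
          (NM V).sat i (.box α φ) → (NM V).sat j (.box α φ) := by
        intro i j hij hi v hv
        obtain ⟨n, hn, rfl⟩ := (rel_iff V α j v).1 hv
        have hnK := hK' n hn
        refine (h m hm hc V hV (i + n) (j + n) ?_).1 (hi _ ((rel_iff V α i _).2 ⟨n, hn, rfl⟩))
        intro k hk x
        have := hij (n + k) (by omega) x
        rwa [← add_assoc, ← add_assoc] at this
      exact ⟨key i j hij, key j i fun k hk n => (hij k hk n).symm⟩
    · refine ⟨0, D * d, Nat.mul_pos hD hd, fun m hm hc V hV i j _ => ?_⟩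
      have hcD : Nat.Coprime m D := Nat.Coprime.coprime_mul_right_right hc
      have hcd : Nat.Coprime m d := Nat.Coprime.coprime_mul_left_right hc
      have hper : ∀ (t x : ℕ), (NM V).sat (x + t * m) φ ↔ (NM V).sat x φ := by
        intro t x
        induction t with
        | zero => simp
        | succ t ih =>
          rw [← ih]
          have := h m hm hcD V hV (x + t * m + m) (x + t * m) (fun k _ n => by
            rw [show x + t * m + m + k = (x + t * m + k) + m by ring]
            exact hV n _)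
          rw [show x + (t + 1) * m = x + t * m + m by ring]
          exact this
      have hmod : ∀ x y : ℕ, x % m = y % m → ((NM V).sat x φ ↔ (NM V).sat y φ) := by
        intro x y hxy
        rw [← Nat.mod_add_div x m, ← Nat.mod_add_div y m, hxy, mul_comm m (x / m),
          mul_comm m (y / m), hper, hper]
      have key : ∀ i : ℕ, (NM V).sat i (.box α φ) ↔ ∀ x, (NM V).sat x φ := by
        intro i
        constructor
        · intro hi x
          have : NeZero m := ⟨hm.ne'⟩
          let t : ℕ := (((x : ZMod m) - i - k) * (d : ZMod m)⁻¹).val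
          have h1 : ((i + (k + t * d) : ℕ) : ZMod m) = (x : ZMod m) := by
            push_cast
            have h2 : (t : ZMod m) = ((x : ZMod m) - i - k) * (d : ZMod m)⁻¹ :=
              ZMod.natCast_zmod_val _
            have h3 : (d : ZMod m)⁻¹ * (d : ZMod m) = 1 := by
              rw [mul_comm]
              exact ZMod.coe_mul_inv_eq_one d hcd.symm
            rw [h2, mul_assoc, h3]
            ring
          rw [ZMod.natCast_eq_natCast_iff'] at h1
          exact (hmod _ _ h1).1 (hi _ ((rel_iff V α i _).2 ⟨k + t * d, hk t, rfl⟩))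
        · intro hx v _
          exact hx v
      rw [key i, key j]

/-! ### Truth depends only on the letters of the formula, and transfer to other universes -/

lemma sat_congr {V V' : ℕ → ℕ → Prop} (θ : Fm) (h : ∀ n ∈ θ.vars, ∀ i, V n i ↔ V' n i) (i : ℕ) :
    (NM V).sat i θ ↔ (NM V').sat i θ := by
  induction θ generalizing i with
  | var p => exact h p rfl i
  | bot => exact Iff.rfl
  | neg φ ih => exact not_congr (ih h i)
  | and φ ψ ih1 ih2 =>
    exact and_congr (ih1 (fun n hn => h n (Or.inl hn)) i) (ih2 (fun n hn => h n (Or.inr hn)) i)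
  | box α φ ih =>
    simp only [Model.sat, rel_iff]
    exact forall_congr' fun v => imp_congr_right fun _ => ih h v

/-- The copy of `NM V` in the universe `u`. -/
def UM (V : ℕ → ℕ → Prop) : Model (ULift.{u} ℕ) where
  R _ i j := j.down = i.down + 1
  V n i := V n i.down

lemma rel_UM (V : ℕ → ℕ → Prop) (α : Prog) (i j : ULift.{u} ℕ) :
    (UM V).rel α i j ↔ (NM V).rel α i.down j.down := by
  induction α generalizing i j with
  | atom a => exact Iff.rfl
  | seq α β ih1 ih2 =>
    constructor
    · rintro ⟨v, h1, h2⟩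
      exact ⟨v.down, (ih1 _ _).1 h1, (ih2 _ _).1 h2⟩
    · rintro ⟨v, h1, h2⟩
      exact ⟨⟨v⟩, (ih1 _ _).2 h1, (ih2 _ _).2 h2⟩
  | choice α β ih1 ih2 => exact or_congr (ih1 _ _) (ih2 _ _)
  | star α ih =>
    constructor
    · intro h
      exact Relation.ReflTransGen.lift (p := (NM V).rel α) ULift.down
        (fun a b hab => (ih a b).1 hab) _ _ h
    · intro h
      exact Relation.ReflTransGen.lift (p := (UM V).rel α) ULift.up
        (fun a b hab => (ih ⟨a⟩ ⟨b⟩).2 hab) _ _ h

lemma sat_UM (V : ℕ → ℕ → Prop) (θ : Fm) (i : ULift.{u} ℕ) :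
    (UM V).sat i θ ↔ (NM V).sat i.down θ := by
  induction θ generalizing i with
  | var p => exact Iff.rfl
  | bot => exact Iff.rfl
  | neg φ ih => exact not_congr (ih i)
  | and φ ψ ih1 ih2 => exact and_congr (ih1 i) (ih2 i)
  | box α φ ih =>
    constructor
    · intro h v hv
      exact (ih ⟨v⟩).1 (h ⟨v⟩ ((rel_UM V α i ⟨v⟩).2 hv))
    · intro h v hv
      exact (ih v).2 (h v.down ((rel_UM V α i v).1 hv))

lemma valid_NM {φ ψ : Fm} (h : Valid.{u} (φ.imp ψ)) (V : ℕ → ℕ → Prop) (i : ℕ)
    (h1 : (NM V).sat i φ) : (NM V).sat i ψ := by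
  have h2 := h _ (UM V) ⟨i⟩
  rw [sat_UM, sat_imp] at h2
  exact h2 h1

lemma le_of_reach {V : ℕ → ℕ → Prop} {i j : ℕ} (h : Relation.ReflTransGen ((NM V).R 0) i j) :
    i ≤ j := by
  induction h with
  | refl => exact le_rfl
  | tail _ h ih =>
    have : _ = _ + 1 := h
    omega

lemma reach_of_le {V : ℕ → ℕ → Prop} {i j : ℕ} (h : i ≤ j) :
    Relation.ReflTransGen ((NM V).R 0) i j := by
  induction j, h using Nat.le_induction with
  | base => exact .refl
  | succ j _ ih => exact ih.tail rfl

/-- **Test-free PDL does not have the Craig interpolation property.** -/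
theorem result : ¬ CraigInterpolation.{u} := by
  intro hC
  obtain ⟨θ, hv, -, h1, h2⟩ := hC fl fr valid_imp
  have hvars : ∀ n ∈ θ.vars, n = 0 ∨ n = 1 := by
    intro n hn
    have h3 := hv hn
    simp only [fl, fr, fr', Fm.vars, Fm.imp, Set.mem_inter_iff, Set.mem_union,
      Set.mem_singleton_iff] at h3
    omega
  obtain ⟨K, D, hD, hloc⟩ := local_truth θ
  let m : ℕ := D * (2 * K + 4) + 1
  have hmpos : 0 < m := Nat.succ_pos _
  have hmK : 2 * K + 4 < m := by
    have : 1 * (2 * K + 4) ≤ D * (2 * K + 4) := Nat.mul_le_mul_right _ hD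
    change 2 * K + 4 < D * (2 * K + 4) + 1
    omega
  have hcop : Nat.Coprime m D := by
    have : Nat.Coprime (1 + D * (2 * K + 4)) D := by
      rw [Nat.coprime_add_mul_left_left]
      exact Nat.coprime_one_left D
    rwa [add_comm] at this
  -- the periodic valuation of `p` and `q`
  let V : ℕ → ℕ → Prop := fun n i =>
    (n = 0 ∧ i % m ≠ 2 * K + 3) ∨ (n = 1 ∧ i % m ≠ K + 1)
  have hper : ∀ n i, V n (i + m) ↔ V n i := by
    intro n i
    simp only [V, Nat.add_mod_right]
  have hsame : (NM V).sat 0 θ ↔ (NM V).sat (K + 2) θ := by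
    refine hloc m hmpos hcop V hper 0 (K + 2) ?_
    intro k hk n
    have e1 : (0 + k) % m = k := by rw [zero_add]; exact Nat.mod_eq_of_lt (by omega)
    have e2 : (K + 2 + k) % m = K + 2 + k := Nat.mod_eq_of_lt (by omega)
    simp only [V, e1, e2]
    omega
  -- `θ` is true at `K + 2`
  have htrue : (NM V).sat (K + 2) θ := by
    let V' : ℕ → ℕ → Prop := fun n i =>
      (n = 0 ∧ i % m ≠ 2 * K + 3) ∨ (n = 1 ∧ i % m ≠ K + 1) ∨
        (n = 2 ∧ K + 2 ≤ i ∧ i ≤ 2 * K + 3)
    have h3 : (NM V').sat (K + 2) fl := by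
      rw [sat_fl]
      refine ⟨Or.inr (Or.inr ⟨rfl, le_rfl, by omega⟩), ?_⟩
      intro v _ hv2
      have hv2' : K + 2 ≤ v ∧ v ≤ 2 * K + 3 := by
        rcases hv2 with ⟨h, _⟩ | ⟨h, _⟩ | ⟨_, h⟩
        · exact absurd h (by decide)
        · exact absurd h (by decide)
        · exact h
      have e1 : v % m = v := Nat.mod_eq_of_lt (by omega)
      refine ⟨Or.inr (Or.inl ⟨rfl, by omega⟩), ?_⟩
      intro hv0 u hu
      have hu' : u = v + 1 := hu
      have h5 : v % m ≠ 2 * K + 3 := by
        rcases hv0 with ⟨_, h⟩ | ⟨h, _⟩ | ⟨h, _⟩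
        · exact h
        · exact absurd h (by decide)
        · exact absurd h (by decide)
      exact Or.inr (Or.inr ⟨rfl, by omega, by omega⟩)
    have h4 := valid_NM h1 V' (K + 2) h3
    refine (sat_congr θ ?_ (K + 2)).1 h4
    intro n hn i
    rcases hvars n hn with rfl | rfl
    · simp [V, V']
    · simp [V, V']
  -- `θ` is false at `0`
  have hfalse : ¬ (NM V).sat 0 θ := by
    intro hθ
    let V' : ℕ → ℕ → Prop := fun n i =>
      (n = 0 ∧ i % m ≠ 2 * K + 3) ∨ (n = 1 ∧ i % m ≠ K + 1) ∨ (n = 3 ∧ i = K + 1)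
    have h3 : (NM V').sat 0 fr' := by
      rw [sat_fr']
      refine ⟨⟨K + 1, reach_of_le (Nat.zero_le _), Or.inr (Or.inr ⟨rfl, rfl⟩), ?_⟩, ?_⟩
      · rintro (⟨h, _⟩ | ⟨_, h⟩ | ⟨h, _⟩)
        · exact absurd h (by decide)
        · exact h (Nat.mod_eq_of_lt (by omega))
        · exact absurd h (by decide)
      · intro v _ hv0 u hu x hx hx3
        have hu' : u = v + 1 := hu
        have hux := le_of_reach hx
        have hxe : x = K + 1 := by
          rcases hx3 with ⟨h, _⟩ | ⟨h, _⟩ | ⟨_, h⟩
          · exact absurd h (by decide)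
          · exact absurd h (by decide)
          · exact h
        apply hv0
        refine Or.inl ⟨rfl, ?_⟩
        have e1 : v % m = v := Nat.mod_eq_of_lt (by omega)
        omega
    have h4 : (NM V').sat 0 θ := by
      refine (sat_congr θ ?_ 0).1 hθ
      intro n hn i
      rcases hvars n hn with rfl | rfl
      · simp [V, V']
      · simp [V, V']
    exact valid_NM h2 V' 0 h4 h3
  exact hfalse (hsame.2 htrue)

end Pool.Agent.Results.MP_7a64d7_lc.TestFreePDLNoCraig
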